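import Mathlib
import Pool.Agent.H.MP_3c1a79_gt.Fin

set_option autoImplicit false

namespace Pool.Agent.Results.MP_3c1a79_gt.Yes

open MeasureTheory

/-- `Y`, a set of operators with the norm topology, is equivariantly contractible for the action
`c`. -/
def EqContractible {G B : Type} [NormedAddCommGroup B] (c : G → B → B) (Y : Set B) : Prop :=
  ∃ (y₀ : Y) (h : C(unitInterval × Y, Y)), (∀ g, c g y₀ = y₀) ∧
    (∀ y, h (0, y) = y) ∧ (∀ y, h (1, y) = y₀) ∧
    ∀ t g (y z : Y), (z : B) = c g y → (h (t, z) : B) = c g (h (t, y))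

/-- All `π g` are unitary, and the unitary group and the set of invertible elements are
equivariantly contractible for the conjugation action. -/
def Kuiper {G B : Type} [NormedRing B] [StarRing B] (π : G → B) : Prop :=
  (∀ g, π g ∈ unitary B) ∧ EqContractible (fun g T => π g * T * star (π g)) (unitary B : Set B) ∧
    EqContractible (fun g T => π g * T * star (π g)) {T : B | IsUnit T}

/-- Left translation operators on a Hilbert space `H` of classes of functions `ev f` exist and
have the property above. -/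
def Transl {G E : Type} [Group G] [MeasurableSpace G] (μ : Measure G) (H : Type)
    [NormedAddCommGroup H] [InnerProductSpace ℂ H] [CompleteSpace H] (ev : H → G → E) : Prop :=
  ∃ π : G → H →L[ℂ] H, (∀ g f, ev (π g f) =ᵐ[μ] fun x => ev f (g⁻¹ * x)) ∧ Kuiper π

/-- The case `H = L²(G; E)`. -/
def Regular {G : Type} [Group G] [MeasurableSpace G] (μ : Measure G) (E : Type)
    [NormedAddCommGroup E] [InnerProductSpace ℂ E] [CompleteSpace E] : Prop :=
  Transl μ (Lp E 2 μ) fun f x => f x

theorem result {G : Type} [Group G] [TopologicalSpace G] [IsTopologicalGroup G] [CompactSpace G]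
    [SecondCountableTopology G] [MeasurableSpace G] [BorelSpace G] (μ : Measure G)
    [μ.IsHaarMeasure] [IsProbabilityMeasure μ] : Regular μ (lp (fun _ : ℕ => ℂ) 2) := by
  obtain ⟨s, r, h⟩ := H.MP_3c1a79_gt.two_iso
  have := H.MP_3c1a79_gt.sep
  obtain ⟨l, h1, h2, ⟨F⟩⟩ := H.MP_3c1a79_gt.reg μ s r h
  refine ⟨l, h1, fun g => ⟨?_, ?_⟩, H.MP_3c1a79_gt.both h2 F⟩
  · rw [h2, ← map_mul, inv_mul_cancel, map_one]
  · rw [h2, ← map_mul, mul_inv_cancel, map_one]

end Pool.Agent.Results.MP_3c1a79_gt.Yes
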